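import Mathlib

set_option autoImplicit false

/-! # Project TQ, (FI): the shift and the scaling at the end of (CL) -/

namespace Pool.Agent.J4H42.TQ

open Polynomial

theorem fi (p m : ℕ) (hp : p ≠ 0) (ι κ : Type) [Fintype ι] [Fintype κ] (hι : Fintype.card ι = p)
    (hκ : Fintype.card κ = p - 1) (β : ι → ℚ) (hβ : Function.Injective β) (hs : ∑ i, β i ≠ 0)
    (w : κ → ℂ) (hw : Function.Injective w)
    (h : ∀ i, aeval (w i) (X ^ p - ∏ i, (X - C (β i : ℝ)) : ℝ[X]) = 0 ∧
      aeval (w i) (derivative (X ^ p - ∏ i, (X - C (β i : ℝ)) : ℝ[X])) ≠ 0)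
    (hc : {i | (w i).im = 0}.ncard = 2 * m) :
    ∃ α : Fin p → ℚ, Function.Injective α ∧ ∑ i, α i = 0 ∧ ∃ z : Fin (p - 1) → ℂ,
      Function.Injective z ∧ (∀ i,
        aeval (z i) ((X + 1) ^ p - ∏ i, (X - C (α i : ℝ)) : ℝ[X]) = 0 ∧
        aeval (z i) (derivative ((X + 1) ^ p - ∏ i, (X - C (α i : ℝ)) : ℝ[X])) ≠ 0) ∧
        {i | (z i).im = 0}.ncard = 2 * m := by
  classical
  obtain ⟨e⟩ : Nonempty (Fin p ≃ ι) := ⟨(Fintype.equivFinOfCardEq hι).symm⟩
  obtain ⟨f⟩ : Nonempty (Fin (p - 1) ≃ κ) := ⟨(Fintype.equivFinOfCardEq hκ).symm⟩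
  have hp0 : (p : ℚ) ≠ 0 := by exact_mod_cast hp
  obtain ⟨c, hcd⟩ : ∃ c : ℚ, c = (∑ i, β i) / p := ⟨_, rfl⟩
  have hc0 : c ≠ 0 := by rw [hcd]; exact div_ne_zero hs hp0
  have hcR : (c : ℝ) ≠ 0 := by exact_mod_cast hc0
  have hcC : ((c : ℝ) : ℂ) ≠ 0 := by exact_mod_cast hcR
  have hzim : ∀ u : ℂ, (u / ((c : ℝ) : ℂ) - 1).im = u.im / c := by
    intro u
    rw [Complex.sub_im, Complex.one_im, sub_zero, Complex.div_ofReal_im]
  refine ⟨fun i => β (e i) / c - 1, ?_, ?_, fun i => w (f i) / ((c : ℝ) : ℂ) - 1, ?_, ?_, ?_⟩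
  · intro i j hij
    have h1 : β (e i) / c - 1 = β (e j) / c - 1 := hij
    have h2 : β (e i) / c = β (e j) / c := by linarith
    exact e.injective (hβ ((div_left_inj' hc0).1 h2))
  · rw [Finset.sum_sub_distrib, ← Finset.sum_div, e.sum_comp (fun i => β i), Finset.sum_const,
      Finset.card_univ, Fintype.card_fin, nsmul_eq_mul, mul_one, hcd]
    field_simp
    ring
  · intro i j hij
    have h1 : w (f i) / ((c : ℝ) : ℂ) - 1 = w (f j) / ((c : ℝ) : ℂ) - 1 := hij
    have h2 : w (f i) / ((c : ℝ) : ℂ) = w (f j) / ((c : ℝ) : ℂ) := by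
      linear_combination h1
    exact f.injective (hw ((div_left_inj' hcC).1 h2))
  · have key : (X ^ p - ∏ i, (X - C (β i : ℝ)) : ℝ[X]).comp (C (c : ℝ) * (X + 1)) =
        C ((c : ℝ) ^ p) * ((X + 1) ^ p - ∏ i : Fin p, (X - C (((β (e i) / c - 1 : ℚ)) : ℝ)) : ℝ[X]) := by
      rw [sub_comp, pow_comp, X_comp, prod_comp, mul_sub, mul_pow, C_pow, ← e.prod_comp]
      congr 1
      have h1 : (C (c : ℝ) : ℝ[X]) ^ p = ∏ _i : Fin p, C (c : ℝ) := by
        rw [Finset.prod_const, Finset.card_univ, Fintype.card_fin]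
      rw [h1, ← Finset.prod_mul_distrib]
      refine Finset.prod_congr rfl fun i _ => ?_
      rw [sub_comp, X_comp, C_comp]
      have h2 : ((β (e i) : ℚ) : ℝ) = (c : ℝ) * (((β (e i) / c - 1 : ℚ) : ℝ) + 1) := by
        push_cast
        field_simp
        ring
      rw [h2, C_mul, C_add, C_1]
      ring
    intro i
    have hz : aeval (w (f i) / ((c : ℝ) : ℂ) - 1) (C (c : ℝ) * (X + 1) : ℝ[X]) = w (f i) := by
      rw [map_mul, aeval_C, map_add, aeval_X, map_one, sub_add_cancel]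
      exact mul_div_cancel₀ _ hcC
    have e1 := congrArg (aeval (w (f i) / ((c : ℝ) : ℂ) - 1)) key
    rw [aeval_comp, hz, (h (f i)).1, map_mul, aeval_C] at e1
    have e2 := congrArg (fun P => aeval (w (f i) / ((c : ℝ) : ℂ) - 1) (derivative P)) key
    rw [derivative_comp, derivative_C_mul, derivative_C_mul, map_mul, aeval_comp, hz, map_mul,
      map_mul, aeval_C, aeval_C] at e2
    have hcp : (algebraMap ℝ ℂ) ((c : ℝ) ^ p) ≠ 0 := by
      rw [Complex.coe_algebraMap]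
      exact_mod_cast pow_ne_zero p hcR
    refine ⟨?_, ?_⟩
    · rcases mul_eq_zero.1 e1.symm with h1 | h1
      · exact absurd h1 hcp
      · exact h1
    · intro h0
      have e3 : aeval (w (f i) / ((c : ℝ) : ℂ) - 1) (derivative ((X + 1) ^ p -
        ∏ i : Fin p, (X - C (((β (e i) / c - 1 : ℚ)) : ℝ)) : ℝ[X])) = 0 := h0
      rw [e3, mul_zero] at e2
      have h5 : aeval (w (f i) / ((c : ℝ) : ℂ) - 1) (derivative (X + 1 : ℝ[X])) = (1 : ℂ) := by
        rw [derivative_add, derivative_X, derivative_one, add_zero, map_one]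
      rw [h5, mul_one] at e2
      rcases mul_eq_zero.1 e2 with h1 | h1
      · rw [Complex.coe_algebraMap] at h1
        exact hcC h1
      · exact (h (f i)).2 h1
  · have himg : {i | (w i).im = 0} = f '' {i | (w (f i) / ((c : ℝ) : ℂ) - 1).im = 0} := by
      ext x
      simp only [Set.mem_setOf_eq, Set.mem_image]
      constructor
      · intro hx
        refine ⟨f.symm x, ?_, f.apply_symm_apply x⟩
        rw [hzim, f.apply_symm_apply, hx, zero_div]
      · rintro ⟨i, hi, rfl⟩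
        rw [hzim] at hi
        rcases div_eq_zero_iff.1 hi with h1 | h1
        · exact h1
        · exact absurd h1 hcR
    rw [himg, Set.ncard_image_of_injective _ f.injective] at hc
    exact hc

end Pool.Agent.J4H42.TQ
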